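import Pool.Agent.TH112.BL.Main

/-!
# Liouville correlations along several Beatty sequences

The logarithmic averages of `λ(n) λ(⌊α_1 n⌋) ⋯ λ(⌊α_ℓ n⌋)` tend to zero for all positive irrational
`α_1, …, α_ℓ` that are linearly independent over `ℚ`, unless `1` is a rational linear combination of
the `α_i` in which every coefficient is different from zero.

More generally this holds for every finite family of positive irrational numbers in which one member
does not lie in the rational span of `1` and the other members.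
-/

set_option autoImplicit false

namespace Pool.Agent.Results.MP_67663b_nt.BeattyLiouville

open Finset Filter

lemma floor_toNat (x : ℝ) : ⌊x⌋.toNat = ⌊x⌋₊ := Int.floor_toNat x

open Pool.Agent.TH112.BL in
/-- the general statement -/
theorem general (κ : Type) [Fintype κ] (α : κ → ℝ) (k₀ : κ) (hirr : ∀ k, Irrational (α k))
    (hpos : ∀ k, 0 < α k)
    (hind : α k₀ ∉ Submodule.span ℚ (insert (1 : ℝ) (α '' {k | k ≠ k₀}))) :
    Tendsto (fun N : ℕ => (1 / Real.log (N : ℝ)) * ∑ n ∈ Icc 1 N, (1 / (n : ℝ)) *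
        ((-1 : ℝ) ^ ArithmeticFunction.cardFactors n *
          ∏ k, (-1 : ℝ) ^ ArithmeticFunction.cardFactors (⌊α k * (n : ℝ)⌋.toNat))) atTop (nhds 0) ∧
    Tendsto (fun N : ℕ => (1 / Real.log (N : ℝ)) * ∑ n ∈ Icc 1 N, (1 / (n : ℝ)) *
        ∏ k, (-1 : ℝ) ^ ArithmeticFunction.cardFactors (⌊α k * (n : ℝ)⌋.toNat)) atTop (nhds 0) := by
  classical
  have hlr : ∀ m : ℕ, lr m = (-1 : ℝ) ^ ArithmeticFunction.cardFactors m := by
    intro m
    unfold lr Pool.Agent.H376R2.MR.lam
    push_cast
    rfl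
  constructor
  · have h := main α hpos hirr k₀ hind univ (mem_univ _)
    refine h.congr fun N => ?_
    congr 1
    apply sum_congr rfl
    intro n _
    congr 1
    rw [Fintype.prod_option]
    congr 1
    · exact hlr n
    · apply prod_congr rfl
      intro k _
      rw [floor_toNat]
      exact hlr _
  · have h := main α hpos hirr k₀ hind (univ.map Function.Embedding.some)
      (mem_map.2 ⟨k₀, mem_univ _, rfl⟩)
    refine h.congr fun N => ?_
    congr 1
    apply sum_congr rfl
    intro n _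
    congr 1
    rw [prod_map]
    apply prod_congr rfl
    intro k _
    rw [floor_toNat]
    exact hlr _

/-- choice of the special member of an independent family -/
lemma choice (ℓ : ℕ) (α : Fin ℓ → ℝ) (hℓ : 1 ≤ ℓ) (hlin : LinearIndependent ℚ α)
    (hne : ¬ ∃ c : Fin ℓ → ℚ, (∀ i, c i ≠ 0) ∧ ∑ i, (c i : ℝ) * α i = 1) :
    ∃ k₀ : Fin ℓ, α k₀ ∉ Submodule.span ℚ (insert (1 : ℝ) (α '' {k | k ≠ k₀})) := by
  classical
  -- a relation for `α k₀`
  have key : ∀ k₀ : Fin ℓ, α k₀ ∈ Submodule.span ℚ (insert (1 : ℝ) (α '' {k | k ≠ k₀})) →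
      ∃ q : ℚ, ∃ d : Fin ℓ → ℚ, d k₀ = 0 ∧ α k₀ = (q : ℝ) + ∑ i, (d i : ℝ) * α i := by
    intro k₀ h
    rw [Submodule.mem_span_insert] at h
    obtain ⟨q, z, hz, h1⟩ := h
    have h2 : ∃ d : Fin ℓ → ℚ, d k₀ = 0 ∧ z = ∑ i, (d i : ℝ) * α i := by
      clear h1
      induction hz using Submodule.span_induction with
      | mem x hx =>
        obtain ⟨k, hk, rfl⟩ := hx
        refine ⟨fun i => if i = k then 1 else 0, ?_, ?_⟩
        · have : k₀ ≠ k := fun h => hk h.symm
          simp [this]
        · rw [sum_eq_single k]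
          · simp
          · intro i _ hi
            simp [hi]
          · intro h
            exact absurd (mem_univ _) h
      | zero => exact ⟨fun _ => 0, rfl, by simp⟩
      | add x y _ _ hx hy =>
        obtain ⟨d, h3, h4⟩ := hx
        obtain ⟨e, h5, h6⟩ := hy
        refine ⟨fun i => d i + e i, by simp [h3, h5], ?_⟩
        rw [h4, h6, ← sum_add_distrib]
        apply sum_congr rfl
        intro i _
        push_cast
        ring
      | smul a x _ hx =>
        obtain ⟨d, h3, h4⟩ := hx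
        refine ⟨fun i => a * d i, by simp [h3], ?_⟩
        rw [h4, Rat.smul_def, mul_sum]
        apply sum_congr rfl
        intro i _
        push_cast
        ring
    obtain ⟨d, h3, h4⟩ := h2
    refine ⟨q, d, h3, ?_⟩
    rw [h1, h4, Rat.smul_def, mul_one]
  -- independence
  have hli : ∀ g : Fin ℓ → ℚ, ∑ i, (g i : ℝ) * α i = 0 → ∀ i, g i = 0 := by
    intro g hg
    rw [Fintype.linearIndependent_iff] at hlin
    apply hlin g
    rw [← hg]
    apply sum_congr rfl
    intro i _
    rw [Rat.smul_def]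
  by_cases h1 : ∃ c : Fin ℓ → ℚ, ∑ i, (c i : ℝ) * α i = 1
  · obtain ⟨c, hc⟩ := h1
    have h2 : ∃ k₀, c k₀ = 0 := by
      by_contra hcon
      push Not at hcon
      exact hne ⟨c, hcon, hc⟩
    obtain ⟨k₀, hk⟩ := h2
    refine ⟨k₀, fun h => ?_⟩
    obtain ⟨q, d, hd, he⟩ := key k₀ h
    have h3 := hli (fun i => (if i = k₀ then 1 else 0) - q * c i - d i) (by
      have : ∑ i, (((if i = k₀ then (1 : ℚ) else 0) - q * c i - d i : ℚ) : ℝ) * α i =
          ∑ i, ((if i = k₀ then (1 : ℝ) else 0) * α i - (q : ℝ) * ((c i : ℝ) * α i) -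
            (d i : ℝ) * α i) := by
        apply sum_congr rfl
        intro i _
        split_ifs <;> push_cast <;> ring
      rw [this, sum_sub_distrib, sum_sub_distrib, ← mul_sum, hc]
      simp only [ite_mul, one_mul, zero_mul, sum_ite_eq', mem_univ, if_true]
      linarith) k₀
    simp [hk, hd] at h3
  · have h0 : 0 < ℓ := hℓ
    refine ⟨⟨0, h0⟩, fun h => ?_⟩
    obtain ⟨q, d, hd, he⟩ := key _ h
    by_cases hq : q = 0
    · have h3 := hli (fun i => (if i = ⟨0, h0⟩ then 1 else 0) - d i) (by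
        have : ∑ i, (((if i = (⟨0, h0⟩ : Fin ℓ) then (1 : ℚ) else 0) - d i : ℚ) : ℝ) * α i =
            ∑ i, ((if i = (⟨0, h0⟩ : Fin ℓ) then (1 : ℝ) else 0) * α i - (d i : ℝ) * α i) := by
          apply sum_congr rfl
          intro i _
          split_ifs <;> push_cast <;> ring
        rw [this, sum_sub_distrib]
        simp only [ite_mul, one_mul, zero_mul, sum_ite_eq', mem_univ, if_true]
        rw [hq] at he
        push_cast at he
        linarith) ⟨0, h0⟩
      simp [hd] at h3
    · apply h1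
      refine ⟨fun i => ((if i = ⟨0, h0⟩ then 1 else 0) - d i) / q, ?_⟩
      have hq' : (q : ℝ) ≠ 0 := by exact_mod_cast hq
      have : ∑ i, ((((if i = (⟨0, h0⟩ : Fin ℓ) then (1 : ℚ) else 0) - d i) / q : ℚ) : ℝ) * α i =
          (∑ i, ((if i = (⟨0, h0⟩ : Fin ℓ) then (1 : ℝ) else 0) * α i - (d i : ℝ) * α i)) / q := by
        rw [sum_div]
        apply sum_congr rfl
        intro i _
        split_ifs <;> push_cast <;> ring
      rw [this, sum_sub_distrib]
      simp only [ite_mul, one_mul, zero_mul, sum_ite_eq', mem_univ, if_true]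
      rw [div_eq_one_iff_eq hq']
      linarith

/-- The theorem: Q1 for all tuples except those for which `1` is a rational combination of the
`α_i` with all coefficients different from zero. -/
theorem result :
    ∀ (ℓ : ℕ) (α : Fin ℓ → ℝ), 1 ≤ ℓ → (∀ i, Irrational (α i)) → (∀ i, 0 < α i) →
      LinearIndependent ℚ α →
      (¬ ∃ c : Fin ℓ → ℚ, (∀ i, c i ≠ 0) ∧ ∑ i, (c i : ℝ) * α i = 1) →
      Tendsto (fun N : ℕ => (1 / Real.log (N : ℝ)) * ∑ n ∈ Icc 1 N, (1 / (n : ℝ)) *
        ((-1 : ℝ) ^ ArithmeticFunction.cardFactors n *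
          ∏ i : Fin ℓ, (-1 : ℝ) ^ ArithmeticFunction.cardFactors (⌊α i * (n : ℝ)⌋.toNat)))
        atTop (nhds 0) := by
  intro ℓ α hℓ hirr hpos hlin hne
  obtain ⟨k₀, hk⟩ := choice ℓ α hℓ hlin hne
  exact (general (Fin ℓ) α k₀ hirr hpos hk).1

end Pool.Agent.Results.MP_67663b_nt.BeattyLiouville
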